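import Mathlib

namespace Pool.Agent.Results.MP_61ce55_lc.Counter

open Finset

/-- Load vector of the schedule `s` (job `j` goes to machine `s j`). -/
def load {d n : ℕ} (p : Fin d → Fin n → ℝ) (s : Fin n → Fin d) : Fin d → ℝ :=
  fun i => ∑ j, if s j = i then p i j else 0

/-- Ordered norm: `x ∘ Tuple.sort x` is nondecreasing, so `k ↦ x (Tuple.sort x k.rev)` lists the
coordinates of `x` in nonincreasing order. -/
noncomputable def ordNorm {d : ℕ} (w x : Fin d → ℝ) : ℝ :=
  ∑ k, w k * x (Tuple.sort x k.rev)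

/-- `X` is an `α`-approximate portfolio for the ordered norms. -/
def IsPortfolio {d n : ℕ} (p : Fin d → Fin n → ℝ) (α : ℝ) (X : Finset (Fin d → ℝ)) : Prop :=
  (∀ x ∈ X, ∃ s, x = load p s) ∧
  ∀ w : Fin d → ℝ, w ≠ 0 → Antitone w → (∀ k, 0 ≤ w k) →
    ∃ x ∈ X, ∀ s, ordNorm w x ≤ α * ordNorm w (load p s)

noncomputable def top {d : ℕ} (l : ℕ) (x : Fin d → ℝ) : ℝ :=
  ∑ k ∈ univ.filter (fun k : Fin d => k.val < l), x (Tuple.sort x k.rev)

lemma card_lt (d l : ℕ) : (univ.filter (fun k : Fin d => k.val < l)).card ≤ l := by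
  have : (univ.filter (fun k : Fin d => k.val < l)).card ≤ (range l).card :=
    card_le_card_of_injOn (fun k => k.val) (fun k hk => by simpa using hk)
      (fun a _ b _ h => Fin.ext h)
  simpa using this

lemma card_eq (d l : ℕ) (h : l ≤ d) : (univ.filter (fun k : Fin d => k.val < l)).card = l := by
  simpa using Fin.card_filter_val_lt (n := d) (m := l) |>.trans (min_eq_right h)

lemma anti_sum {d : ℕ} (y : Fin d → ℝ) (hy : Antitone y) (h0 : ∀ k, 0 ≤ y k) (l : ℕ)
    (S : Finset (Fin d)) (hS : S.card ≤ l) :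
    ∑ k ∈ S, y k ≤ ∑ k ∈ univ.filter (fun k : Fin d => k.val < l), y k := by
  by_cases hl : d ≤ l
  · apply sum_le_sum_of_subset_of_nonneg
    · intro k _
      simp only [mem_filter, mem_univ, true_and]
      exact lt_of_lt_of_le k.2 hl
    · exact fun k _ _ => h0 k
  push Not at hl
  set t := y ⟨l, hl⟩ with ht
  set T := univ.filter (fun k : Fin d => k.val < l) with hT
  have hTc : T.card = l := card_eq d l hl.le
  have h1 : ∑ k ∈ S, y k ≤ ∑ k ∈ S, ((if k ∈ T then y k - t else 0) + t) := by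
    apply sum_le_sum
    intro k _
    split_ifs with hk
    · linarith
    · have : (⟨l, hl⟩ : Fin d) ≤ k := by
        simp only [hT, mem_filter, mem_univ, true_and, not_lt] at hk
        exact hk
      linarith [hy this]
  have h2 : ∑ k ∈ S, (if k ∈ T then y k - t else 0) ≤ ∑ k, (if k ∈ T then y k - t else 0) := by
    apply sum_le_sum_of_subset_of_nonneg (subset_univ _)
    intro k _ _
    split_ifs with hk
    · have : k ≤ (⟨l, hl⟩ : Fin d) := by
        simp only [hT, mem_filter, mem_univ, true_and] at hk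
        exact hk.le
      linarith [hy this]
    · exact le_rfl
  have h3 : ∑ k, (if k ∈ T then y k - t else 0) = ∑ k ∈ T, y k - l * t := by
    rw [sum_ite_mem, univ_inter, sum_sub_distrib, sum_const, hTc, nsmul_eq_mul]
  rw [sum_add_distrib, sum_const, nsmul_eq_mul] at h1
  have h4 : (S.card : ℝ) * t ≤ l * t := by
    have : (S.card : ℝ) ≤ l := by exact_mod_cast hS
    exact mul_le_mul_of_nonneg_right this (h0 _)
  linarith

variable {ι : Type} [DecidableEq ι] {d : ℕ}

lemma top_ge (e : ι ≃ Fin d) (x : Fin d → ℝ) (h0 : ∀ k, 0 ≤ x k) (l : ℕ)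
    (S : Finset ι) (hS : S.card ≤ l) : ∑ m ∈ S, x (e m) ≤ top l x := by
  let f : Fin d ≃ Fin d := Fin.revPerm.trans (Tuple.sort x)
  have hy : Antitone (fun k : Fin d => x (Tuple.sort x k.rev)) := fun a b h =>
    Tuple.monotone_sort x (Fin.rev_le_rev.2 h)
  have := anti_sum _ hy (fun k => h0 _) l (S.map (e.trans f.symm).toEmbedding) (by simpa using hS)
  rw [sum_map] at this
  refine le_trans (le_of_eq (sum_congr rfl fun m _ => ?_)) this
  have : f (f.symm (e m)) = e m := f.apply_symm_apply _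
  exact congrArg x this.symm

lemma top_le (e : ι ≃ Fin d) (x : Fin d → ℝ) (l : ℕ) :
    ∃ S : Finset ι, S.card ≤ l ∧ top l x = ∑ m ∈ S, x (e m) := by
  let f : Fin d ≃ Fin d := Fin.revPerm.trans (Tuple.sort x)
  refine ⟨(univ.filter (fun k : Fin d => k.val < l)).map (f.trans e.symm).toEmbedding,
    by simpa using card_lt d l, ?_⟩
  rw [sum_map]
  refine sum_congr rfl fun k _ => ?_
  simp [f]

abbrev Mach (b M : ℕ) := Σ j : Fin M, Fin (b ^ (4 * j.val)) × Option (Fin (b ^ 2))
abbrev Job (b M : ℕ) := Σ j : Fin M, Fin (b ^ (4 * j.val)) × Fin (b ^ 2)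

def ex (j : ℕ) (s : Bool) : ℕ := 2 * j + (if s then 1 else 0)

noncomputable def q (b : ℕ) (j : ℕ) (s : Bool) : ℝ := b * b ^ ex j s / b ^ (4 * j + 2)

noncomputable def P (b M : ℕ) (m : Mach b M) (t : Job b M) : ℝ :=
  if m.1 = t.1 then q b m.1 m.2.2.isSome else b * b ^ (2 * M)

lemma q_nonneg (b j : ℕ) (s : Bool) : 0 ≤ q b j s := by unfold q; positivity

lemma P_nonneg (b M : ℕ) (m : Mach b M) (t : Job b M) : 0 ≤ P b M m t := by
  unfold P; split_ifs
  · exact q_nonneg _ _ _
  · positivity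

noncomputable def LD (b M : ℕ) (s : Job b M → Mach b M) (m : Mach b M) : ℝ :=
  ∑ t, if s t = m then P b M m t else 0

lemma sum_LD (b M : ℕ) (s : Job b M → Mach b M) (S : Finset (Mach b M)) :
    ∑ m ∈ S, LD b M s m = ∑ t, if s t ∈ S then P b M (s t) t else 0 := by
  unfold LD
  rw [sum_comm]
  refine sum_congr rfl fun t _ => ?_
  rw [sum_ite_eq]

def sched (b M : ℕ) (σ : Fin M → Bool) (t : Job b M) : Mach b M :=
  ⟨t.1, (t.2.1, if σ t.1 then some t.2.2 else none)⟩

lemma upper (b M : ℕ) (hb : 1 ≤ b) (σ : Fin M → Bool) (j0 : Fin M) (S : Finset (Mach b M))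
    (hS : S.card ≤ b ^ (2 * ex j0 (!σ j0))) :
    ∑ m ∈ S, LD b M (sched b M σ) m ≤ M * (b : ℝ) ^ ex j0 (!σ j0) := by
  have hb1 : (1 : ℝ) ≤ b := by exact_mod_cast hb
  have hb0 : (0 : ℝ) < b := by linarith
  rw [sum_LD, Fintype.sum_sigma]
  have key : ∀ j : Fin M, ∑ v : Fin (b ^ (4 * j.val)) × Fin (b ^ 2),
      (if sched b M σ ⟨j, v⟩ ∈ S then P b M (sched b M σ ⟨j, v⟩) ⟨j, v⟩ else 0) ≤
        (b : ℝ) ^ ex j0 (!σ j0) := by
    intro j
    have hP : ∀ v, P b M (sched b M σ ⟨j, v⟩) ⟨j, v⟩ = q b j (σ j) := by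
      intro v
      simp only [P, sched, if_true]
      cases σ j <;> simp
    simp only [hP]
    rw [← sum_filter, sum_const, nsmul_eq_mul]
    set A := univ.filter (fun v : Fin (b ^ (4 * j.val)) × Fin (b ^ 2) => sched b M σ ⟨j, v⟩ ∈ S)
      with hA
    have hne : ex j (σ j) ≠ ex j0 (!σ j0) := by
      unfold ex
      by_cases h : j = j0
      · subst h; cases σ j <;> simp
      · have : j.val ≠ j0.val := fun h' => h (Fin.ext h')
        split_ifs <;> omega
    rcases lt_or_gt_of_ne hne with h | h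
    · have h1 : A.card ≤ b ^ (4 * j.val + 2) := by
        refine (card_le_univ _).trans ?_
        simp [pow_add]
      have h2 : (A.card : ℝ) ≤ b ^ (4 * j.val + 2) := by exact_mod_cast h1
      calc (A.card : ℝ) * q b j (σ j) ≤ b ^ (4 * j.val + 2) * q b j (σ j) :=
            mul_le_mul_of_nonneg_right h2 (q_nonneg _ _ _)
        _ = b ^ (ex j (σ j) + 1) := by unfold q; field_simp; ring
        _ ≤ _ := pow_le_pow_right₀ hb1 h
    · have h1 : A.card * b ^ (2 * ex j (σ j)) ≤ S.card * b ^ (4 * j.val + 2) := by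
        cases hs : σ j
        · have : A.card ≤ (S ×ˢ (univ : Finset (Fin (b ^ 2)))).card := by
            apply card_le_card_of_injOn (fun v => (sched b M σ ⟨j, v⟩, v.2))
            · intro v hv
              simp only [hA, coe_filter, mem_univ, true_and, Set.mem_setOf_eq] at hv
              simp [hv]
            · intro v _ v' _ hvv
              simp only [sched, Prod.mk.injEq, Sigma.mk.injEq, heq_eq_eq, true_and] at hvv
              exact Prod.ext hvv.1.1 hvv.2
          simp only [card_product, card_univ, Fintype.card_fin] at this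
          have e : 2 * ex j false = 4 * j.val := by simp [ex]; ring
          rw [e, pow_add]
          calc A.card * b ^ (4 * j.val) ≤ S.card * b ^ 2 * b ^ (4 * j.val) := by gcongr
            _ = _ := by ring
        · have : A.card ≤ S.card := by
            apply card_le_card_of_injOn (fun v => sched b M σ ⟨j, v⟩)
            · intro v hv
              simp only [hA, coe_filter, mem_univ, true_and, Set.mem_setOf_eq] at hv
              simpa using hv
            · intro v _ v' _ hvv
              simp only [sched, hs, if_true, Prod.mk.injEq, Sigma.mk.injEq, heq_eq_eq, true_and,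
                Option.some.injEq] at hvv
              exact Prod.ext hvv.1 hvv.2
          have e : 2 * ex j true = 4 * j.val + 2 := by simp [ex]; ring
          rw [e]; gcongr
      have h2 : A.card * b ^ (2 * ex j (σ j)) ≤ b ^ (2 * ex j0 (!σ j0)) * b ^ (4 * j.val + 2) :=
        h1.trans (by gcongr)
      have h3 : (A.card : ℝ) * b ^ (2 * ex j (σ j)) ≤
          b ^ (2 * ex j0 (!σ j0)) * b ^ (4 * j.val + 2) := by exact_mod_cast h2
      have h4 : (A.card : ℝ) ≤
          b ^ (2 * ex j0 (!σ j0)) * b ^ (4 * j.val + 2) / b ^ (2 * ex j (σ j)) := by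
        rw [le_div_iff₀ (by positivity)]; exact h3
      have h5 : (b : ℝ) ^ (ex j0 (!σ j0) + 1) ≤ b ^ ex j (σ j) := pow_le_pow_right₀ hb1 h
      calc (A.card : ℝ) * q b j (σ j) ≤
            b ^ (2 * ex j0 (!σ j0)) * b ^ (4 * j.val + 2) / b ^ (2 * ex j (σ j)) * q b j (σ j) :=
            mul_le_mul_of_nonneg_right h4 (q_nonneg _ _ _)
        _ = b ^ ex j0 (!σ j0) * (b ^ (ex j0 (!σ j0) + 1) / b ^ ex j (σ j)) := by
            unfold q; field_simp; ring
        _ ≤ b ^ ex j0 (!σ j0) * 1 := by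
            gcongr
            rw [div_le_one (by positivity)]; exact h5
        _ = _ := mul_one _
  refine (sum_le_sum fun j _ => key j).trans ?_
  simp

lemma lower (b M : ℕ) (hb : 1 ≤ b) (s : Job b M → Mach b M) (j : Fin M) :
    ∃ (β : Bool) (S : Finset (Mach b M)), S.card ≤ b ^ (2 * ex j β) ∧
      (b : ℝ) * b ^ ex j β / 2 ≤ ∑ m ∈ S, LD b M s m := by
  have hb1 : (1 : ℝ) ≤ b := by exact_mod_cast hb
  have hb0 : (0 : ℝ) < b := by linarith
  by_cases hf : ∃ v, (s ⟨j, v⟩).1 ≠ j
  · obtain ⟨v, hv⟩ := hf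
    refine ⟨false, {s ⟨j, v⟩}, by simpa using Nat.one_le_pow _ _ hb, ?_⟩
    rw [sum_singleton]
    have h1 : P b M (s ⟨j, v⟩) ⟨j, v⟩ ≤ LD b M s (s ⟨j, v⟩) := by
      unfold LD
      refine le_trans (le_of_eq ?_) (single_le_sum (f := fun t =>
        if s t = s ⟨j, v⟩ then P b M (s ⟨j, v⟩) t else 0) (fun t _ => ?_) (mem_univ ⟨j, v⟩))
      · simp
      · split_ifs
        · exact P_nonneg _ _ _ _
        · exact le_rfl
    have h2 : P b M (s ⟨j, v⟩) ⟨j, v⟩ = b * b ^ (2 * M) := by
      unfold P; rw [if_neg hv]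
    have h3 : (b : ℝ) ^ ex j false ≤ b ^ (2 * M) := by
      apply pow_le_pow_right₀ hb1
      simp [ex]
    have h4 : (0 : ℝ) ≤ b * b ^ ex j false := by positivity
    nlinarith
  push Not at hf
  let S : Bool → Finset (Mach b M) := fun β =>
    univ.filter (fun m => m.1 = j ∧ m.2.2.isSome = β)
  have hc : ∀ β, (S β).card ≤ b ^ (2 * ex j β) := by
    intro β
    cases β
    · have : S false ⊆ univ.image (fun u : Fin (b ^ (4 * j.val)) => (⟨j, (u, none)⟩ : Mach b M)) := by
        rintro ⟨j', u, o⟩ hm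
        simp only [S, mem_filter, mem_univ, true_and] at hm
        obtain ⟨rfl, ho⟩ := hm
        cases o
        · simp
        · simp at ho
      refine (card_le_card this).trans (card_image_le.trans ?_)
      have e : 2 * ex j false = 4 * j.val := by simp [ex]; ring
      simp [e]
    · have : S true ⊆ univ.image (fun v : Fin (b ^ (4 * j.val)) × Fin (b ^ 2) =>
          (⟨j, (v.1, some v.2)⟩ : Mach b M)) := by
        rintro ⟨j', u, o⟩ hm
        simp only [S, mem_filter, mem_univ, true_and] at hm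
        obtain ⟨rfl, ho⟩ := hm
        cases o with
        | none => simp at ho
        | some g => exact mem_image.2 ⟨(u, g), mem_univ _, rfl⟩
      refine (card_le_card this).trans (card_image_le.trans ?_)
      have e : 2 * ex j true = 4 * j.val + 2 := by simp [ex]; ring
      simp [e, pow_add]
  let A : Bool → Finset (Fin (b ^ (4 * j.val)) × Fin (b ^ 2)) := fun β =>
    univ.filter (fun v => (s ⟨j, v⟩).2.2.isSome = β)
  have hA : ∀ β, (A β).card * q b j β ≤ ∑ m ∈ S β, LD b M s m := by
    intro β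
    rw [sum_LD, Fintype.sum_sigma]
    refine le_trans (le_of_eq ?_) (single_le_sum (f := fun j' : Fin M =>
      ∑ v, if s ⟨j', v⟩ ∈ S β then P b M (s ⟨j', v⟩) ⟨j', v⟩ else 0) (fun j' _ => ?_) (mem_univ j))
    · rw [← nsmul_eq_mul, ← sum_const, sum_filter]
      refine sum_congr rfl fun v _ => ?_
      simp only [S, mem_filter, mem_univ, true_and, hf v]
      split_ifs with h
      · unfold P
        rw [if_pos (hf v), h, hf v]
      · rfl
    · refine sum_nonneg fun v _ => ?_
      split_ifs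
      · exact P_nonneg _ _ _ _
      · exact le_rfl
  have hs : (A true).card + (A false).card = b ^ (4 * j.val + 2) := by
    have := card_filter_add_card_filter_not (s := (univ : Finset (Fin (b ^ (4 * j.val)) × Fin (b ^ 2))))
      (fun v => (s ⟨j, v⟩).2.2.isSome = true)
    simp only [Bool.not_eq_true, card_univ, Fintype.card_prod, Fintype.card_fin] at this
    rw [pow_add]; exact this
  have hh : ∃ β, b ^ (4 * j.val + 2) ≤ 2 * (A β).card := by
    by_cases h : b ^ (4 * j.val + 2) ≤ 2 * (A true).card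
    · exact ⟨true, h⟩
    · exact ⟨false, by omega⟩
  obtain ⟨β, hβ⟩ := hh
  refine ⟨β, S β, hc β, le_trans ?_ (hA β)⟩
  have h2 : (b : ℝ) ^ (4 * j.val + 2) / 2 ≤ (A β).card := by
    have : (b : ℝ) ^ (4 * j.val + 2) ≤ 2 * (A β).card := by exact_mod_cast hβ
    linarith
  calc (b : ℝ) * b ^ ex j β / 2 = b ^ (4 * j.val + 2) / 2 * q b j β := by unfold q; field_simp
    _ ≤ _ := mul_le_mul_of_nonneg_right h2 (q_nonneg _ _ _)

lemma ordNorm_eq {d M : ℕ} (l : Fin M → ℕ) (r : Fin M → ℝ) (x : Fin d → ℝ) :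
    ordNorm (fun k : Fin d => ∑ j, if k.val < l j then 1 / r j else 0) x =
      ∑ j, top (l j) x / r j := by
  unfold ordNorm top
  simp only [sum_mul]
  rw [sum_comm]
  refine sum_congr rfl fun j _ => ?_
  rw [sum_filter, sum_div]
  refine sum_congr rfl fun k _ => ?_
  split_ifs <;> ring

lemma exists_M (K : ℝ) : ∃ M : ℕ, 1 ≤ M ∧ K * (M : ℝ) ^ 3 < 2 ^ M := by
  have h := tendsto_pow_const_div_const_pow_of_one_lt 3 (show (1 : ℝ) < 2 by norm_num)
  have h2 := (h.const_mul K)
  rw [mul_zero] at h2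
  have h3 := (h2.eventually (gt_mem_nhds (show (0 : ℝ) < 1 by norm_num))).and
    (Filter.eventually_ge_atTop 1)
  obtain ⟨M, h4, h5⟩ := h3.exists
  refine ⟨M, h5, ?_⟩
  rw [← mul_div_assoc, div_lt_one (by positivity)] at h4
  exact h4

theorem result (α C : ℝ) (hα : 1 ≤ α) :
    ∃ (d n : ℕ) (p : Fin d → Fin n → ℝ), 2 ≤ d ∧ 1 ≤ n ∧ (∀ i j, 0 ≤ p i j) ∧
      ∀ X : Finset (Fin d → ℝ), IsPortfolio p α X → C * Real.log d < X.card := by
  obtain ⟨a, ha⟩ := exists_nat_gt (2 * α)
  obtain ⟨M, hM1, hM⟩ := exists_M (|C| * (5 * a))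
  have ha2 : 2 ≤ a := by
    have : (2 : ℝ) < a := by linarith
    exact_mod_cast this.le
  set b := a * M ^ 2 with hb
  have hMb : M ≤ b := by rw [hb]; nlinarith
  have hb2 : 2 ≤ b := by rw [hb]; nlinarith [Nat.one_le_pow 2 M hM1]
  have hb1 : 1 ≤ b := by omega
  have hbR : (1 : ℝ) ≤ b := by exact_mod_cast hb1
  have hb0 : (0 : ℝ) < b := by linarith
  let e := Fintype.equivFin (Mach b M)
  let e' := Fintype.equivFin (Job b M)
  have hd : Fintype.card (Mach b M) = ∑ j : Fin M, b ^ (4 * j.val) * (b ^ 2 + 1) := by simp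
  have hn : Fintype.card (Job b M) = ∑ j : Fin M, b ^ (4 * j.val) * b ^ 2 := by simp
  have hd2 : 2 ≤ Fintype.card (Mach b M) := by
    rw [hd]
    refine le_trans ?_ (single_le_sum (f := fun j : Fin M => b ^ (4 * j.val) * (b ^ 2 + 1))
      (fun _ _ => Nat.zero_le _) (mem_univ ⟨0, hM1⟩))
    have := Nat.one_le_pow 2 b hb1
    simp only [mul_zero, pow_zero, one_mul]; omega
  have hn1 : 1 ≤ Fintype.card (Job b M) := by
    rw [hn]
    refine le_trans ?_ (single_le_sum (f := fun j : Fin M => b ^ (4 * j.val) * b ^ 2)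
      (fun _ _ => Nat.zero_le _) (mem_univ ⟨0, hM1⟩))
    have := Nat.one_le_pow 2 b hb1
    simpa using this
  have hdle : Fintype.card (Mach b M) ≤ b ^ (5 * M) := by
    rw [hd]
    have h1 : ∀ j : Fin M, b ^ (4 * j.val) * (b ^ 2 + 1) ≤ b ^ (4 * M - 1) := by
      intro j
      have h2 : b ^ 2 + 1 ≤ b ^ 3 := by nlinarith
      calc b ^ (4 * j.val) * (b ^ 2 + 1) ≤ b ^ (4 * j.val) * b ^ 3 := by gcongr
        _ = b ^ (4 * j.val + 3) := by ring
        _ ≤ _ := Nat.pow_le_pow_right hb1 (by have := j.2; omega)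
    refine (sum_le_sum fun j _ => h1 j).trans ?_
    simp only [sum_const, card_univ, Fintype.card_fin, smul_eq_mul]
    calc M * b ^ (4 * M - 1) ≤ b * b ^ (4 * M - 1) := by gcongr
      _ = b ^ (4 * M - 1 + 1) := by ring
      _ ≤ _ := Nat.pow_le_pow_right hb1 (by omega)
  refine ⟨_, _, fun i k => P b M (e.symm i) (e'.symm k), hd2, hn1,
    fun i k => P_nonneg _ _ _ _, ?_⟩
  set p : Fin (Fintype.card (Mach b M)) → Fin (Fintype.card (Job b M)) → ℝ :=
    fun i k => P b M (e.symm i) (e'.symm k) with hp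
  have hload : ∀ s m, load p s (e m) = LD b M (fun t => e.symm (s (e' t))) m := by
    intro s m
    unfold load LD
    rw [← e'.sum_comp]
    refine sum_congr rfl fun t _ => ?_
    simp only [hp, Equiv.symm_apply_apply, Equiv.symm_apply_eq]
  have hload0 : ∀ s k, 0 ≤ load p s k := by
    intro s k
    refine sum_nonneg fun t _ => ?_
    split_ifs
    · exact P_nonneg _ _ _ _
    · exact le_rfl
  rintro X ⟨hX1, hX2⟩
  classical
  let τ : (Fin (Fintype.card (Mach b M)) → ℝ) → Fin M → Bool := fun x j =>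
    decide ((b : ℝ) * b ^ ex j true / 2 ≤ top (b ^ (2 * ex j true)) x)
  have hsurj : (univ : Finset (Fin M → Bool)) ⊆ X.image τ := by
    intro σ _
    obtain ⟨x, hx, hxs⟩ := hX2 (fun k => ∑ j : Fin M,
      if k.val < b ^ (2 * ex j (!σ j)) then 1 / (b : ℝ) ^ ex j (!σ j) else 0) (by
        intro h
        have h0 := congrFun h ⟨0, by omega⟩
        have : 0 < ∑ j : Fin M, if (0 : ℕ) < b ^ (2 * ex j (!σ j)) then
            1 / (b : ℝ) ^ ex j (!σ j) else 0 := by
          refine sum_pos (fun j _ => ?_) ⟨⟨0, hM1⟩, mem_univ _⟩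
          rw [if_pos (by positivity)]; positivity
        exact this.ne' h0) (by
        intro k k' hk
        refine sum_le_sum fun j _ => ?_
        have : k.val ≤ k'.val := hk
        split_ifs with h1 h2
        · exact le_rfl
        · omega
        · positivity
        · exact le_rfl) (by
        intro k
        refine sum_nonneg fun j _ => ?_
        split_ifs <;> positivity)
    obtain ⟨s, rfl⟩ := hX1 x hx
    have h1 := hxs (fun k => e (sched b M σ (e'.symm k)))
    rw [ordNorm_eq, ordNorm_eq] at h1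
    have h2 : ∑ j : Fin M, top (b ^ (2 * ex j (!σ j)))
        (load p fun k => e (sched b M σ (e'.symm k))) / (b : ℝ) ^ ex j (!σ j) ≤ M * M := by
      have : ∀ j : Fin M, top (b ^ (2 * ex j (!σ j)))
          (load p fun k => e (sched b M σ (e'.symm k))) / (b : ℝ) ^ ex j (!σ j) ≤ M := by
        intro j
        obtain ⟨S, hS, hS'⟩ := top_le e (load p fun k => e (sched b M σ (e'.symm k)))
          (b ^ (2 * ex j (!σ j)))
        rw [hS', div_le_iff₀ (by positivity)]
        simp only [hload, Equiv.symm_apply_apply]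
        exact upper b M hb1 σ j S hS
      refine (sum_le_sum fun j _ => this j).trans ?_
      simp
    have h3 : α * (M * M) < b / 2 := by
      have hM0 : (0 : ℝ) < M := by exact_mod_cast hM1
      rw [hb]; push_cast
      have : (0 : ℝ) < M * M := by positivity
      nlinarith
    have h4 : ∀ j : Fin M, top (b ^ (2 * ex j (!σ j))) (load p s) < b * b ^ ex j (!σ j) / 2 := by
      intro j
      have h5 := single_le_sum (f := fun j : Fin M => top (b ^ (2 * ex j (!σ j))) (load p s) /
        (b : ℝ) ^ ex j (!σ j)) (fun j _ => div_nonneg (sum_nonneg fun k _ => hload0 _ _)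
          (by positivity)) (mem_univ j)
      have h6 : top (b ^ (2 * ex j (!σ j))) (load p s) / (b : ℝ) ^ ex j (!σ j) < b / 2 := by
        have : α * ∑ j : Fin M, top (b ^ (2 * ex j (!σ j)))
          (load p fun k => e (sched b M σ (e'.symm k))) / (b : ℝ) ^ ex j (!σ j) ≤ α * (M * M) :=
          mul_le_mul_of_nonneg_left h2 (by linarith)
        linarith
      rw [div_lt_iff₀ (by positivity)] at h6
      linarith
    refine mem_image.2 ⟨_, hx, funext fun j => ?_⟩
    obtain ⟨β, S, hS, hS'⟩ := lower b M hb1 (fun t => e.symm (s (e' t))) j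
    have h7 := top_ge e (load p s) (hload0 s) _ S hS
    simp only [hload] at h7
    have h8 := hS'.trans h7
    have h9 := h4 j
    cases hσ : σ j
    · rw [hσ] at h9
      simpa [τ] using h9
    · rw [hσ] at h9
      cases β
      · exact absurd h8 (not_le.2 h9)
      · simpa [τ] using h8
  have hcard : 2 ^ M ≤ X.card := by
    have := (card_le_card hsurj).trans card_image_le
    simpa using this
  have hc2 : (2 : ℝ) ^ M ≤ X.card := by exact_mod_cast hcard
  have hlog : Real.log (Fintype.card (Mach b M)) ≤ 5 * a * (M : ℝ) ^ 3 := by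
    have h1 : (Fintype.card (Mach b M) : ℝ) ≤ (b : ℝ) ^ (5 * M) := by exact_mod_cast hdle
    have h2 : (0 : ℝ) < Fintype.card (Mach b M) := by exact_mod_cast (by omega)
    have h3 := Real.log_le_log h2 h1
    rw [Real.log_pow] at h3
    have h4 : Real.log b ≤ b := (Real.log_le_sub_one_of_pos hb0).trans (by linarith)
    have h5 : ((5 * M : ℕ) : ℝ) * Real.log b ≤ ((5 * M : ℕ) : ℝ) * b := by gcongr
    have h6 : ((5 * M : ℕ) : ℝ) * b = 5 * a * (M : ℝ) ^ 3 := by rw [hb]; push_cast; ring
    linarith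
  have hlog0 : 0 ≤ Real.log (Fintype.card (Mach b M)) := Real.log_natCast_nonneg _
  calc C * Real.log (Fintype.card (Mach b M)) ≤ |C| * Real.log (Fintype.card (Mach b M)) := by
        gcongr; exact le_abs_self C
    _ ≤ |C| * (5 * a * (M : ℝ) ^ 3) := by gcongr
    _ = |C| * (5 * a) * (M : ℝ) ^ 3 := by ring
    _ < _ := lt_of_lt_of_le hM hc2

end Pool.Agent.Results.MP_61ce55_lc.Counter
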